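import Mathlib
import Pool.Agent.TH132.A.Hodge
import Pool.Agent.Y1.SC.Main
import Pool.Agent.Y103.HRWeil

/-!
# The conjecture of Hodge type for the products of unrelated varieties with abelian varieties
-/

set_option autoImplicit false
set_option linter.unusedSectionVars false
set_option linter.unusedVariables false

open CategoryTheory AlgebraicGeometry

universe u v

namespace Pool.Agent.Q70.CT

open Module Polynomial Pool.Agent.H914 Pool.Agent.H914.VarClass Pool.Agent.H914.VarClass.Obj
  Pool.Agent.H914.WeilCohomology Pool.Agent.H281R3.HT Pool.Agent.W552 Pool.Agent.W484.HS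
  Pool.Agent.TH132.A Pool.Agent.Y1.CT Pool.Agent.Y1.SC Pool.Agent.Y103

section congr

variable {k : Type u} [Field k] {𝒱 : VarClass k} {ops : CycleOps 𝒱}
  {W : WeilCohomology.{u, v} ops} {X : 𝒱.Obj}

/-- The conjecture of Hodge type depends only on the class of the divisor. -/
theorem hodgeType_congr {C C' : X.Cycles} (hC : X.IsCyc 1 C) (hC' : X.IsCyc 1 C')
    (h : W.cl X C = W.cl X C') (hH : HodgeType W X C) : HodgeType W X C' := by
  intro j hj z hz hp h0
  have h1 := hH j hj z hz (by rw [cl_divPow, h, ← cl_divPow]; exact hp) h0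
  have h2 := deg_eq (W := W) hz (divPow_mem (ops := ops) hC (X.dim - 2 * j) hz) (by omega)
  have h3 := deg_eq (W := W) hz (divPow_mem (ops := ops) hC' (X.dim - 2 * j) hz) (by omega)
  rw [cl_divPow, h, ← cl_divPow] at h2
  have h4 := Rat.cast_injective (α := W.K) (h2.symm.trans h3)
  rwa [h4] at h1

end congr

/-- `HodgeTypeTimes K q F`: the following holds for every algebraically closed field `k`, every
class `𝒱` of smooth projective varieties over `k` closed under products, every Weil cohomology `W`
with algebraically closed coefficient field, every polarized `A` with an endomorphism `f` which is the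
Frobenius endomorphism, relative to the field with `q ^ s` elements, of an abelian variety of type `F`
(`IsAbelianFrobenius`), and every `Z` with a Frobenius endomorphism `g` relative to the same field
whose eigenvalues are unrelated to the fields `K i`, if the class of the fundamental cycle of `A × Z`
is not zero:

* each divisor `C` on `A × Z` is homologically equivalent to a sum `D × Z + A × B` of divisors from
  the factors;
* if `C` satisfies hard Lefschetz for `A × Z` then `D` satisfies hard Lefschetz for `A` and `B`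
  satisfies hard Lefschetz for `Z`;
* if the conjecture of Hodge type holds for `A` and `D`, then the conjecture of Hodge type holds for
  `A × Z` and `C` if and only if it holds for `Z` and `B`. -/
def HodgeTypeTimes {I : Type} (K : I → Type) [∀ i, Field (K i)] (q : ℕ) (F : I → ℤ[X]) : Prop :=
  ∀ (k : Type) [Field k] [IsAlgClosed k] (𝒱 : VarClass k) (ops : CycleOps 𝒱)
    (W : WeilCohomology.{0, 0} ops) [IsAlgClosed W.K] (s : ℕ), 0 < s →
    ∀ (A : Polarized 𝒱) (Z : 𝒱.Obj) (f : A.X ⟶ A.X) (g : Z ⟶ Z),
      IsAbelianFrobenius W q s F A f → UnrelatedEigen K (W.map g) →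
      FrobeniusOnCycles W (A.X.prod Z) (pairMap f g) (q ^ s) →
      ¬ HomEq W (A.X.prod Z).V.fundCycle 0 → ∀ C, (A.X.prod Z).IsCyc 1 C →
      (∃ D B, IsSumOf W C D B) ∧ (HardLefschetz W (A.X.prod Z) C → ∀ D B, IsSumOf W C D B →
        HardLefschetz W A.X D ∧ HardLefschetz W Z B ∧
          (HodgeType W A.X D → (HodgeType W (A.X.prod Z) C ↔ HodgeType W Z B)))

theorem hodgeTypeTimes {I : Type} {K : I → Type} [∀ i, Field (K i)] {q : ℕ} (hq : 1 < q)
    {F : I → ℤ[X]} (hR : NoRel F q (Unrelated K)) : HodgeTypeTimes K q F := by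
  intro k _ _ 𝒱 ops W _ s hs A Z f g hA hZ hF hne C hC
  have hnum : HomEqNum W A.X := Y1.SC.homEqNum_abelian hq hR hs hA
  have hmix : ∀ z, AS W (A.X.prod Z) z → z ∈ mixSpan W A.X Z := by
    intro z hz
    refine AS.ind (p := fun z => z ∈ mixSpan W A.X Z) ?_
      (fun x y hx hy => Submodule.add_mem _ hx hy) hz
    rintro c _ ⟨z, hz, rfl⟩
    exact Y1.SC.alg_mem_mix hq hR hs hA hZ hF c z hz
  have htens : ∀ z, AS W (A.X.prod Z) z → z ∈ tens W A.X Z := fun z hz =>
    mem_tens hnum hz (hmix z hz)
  obtain ⟨h1, h2, h3⟩ := conjectureATimes hq hR k 𝒱 ops W s hs A Z f g hA hZ hF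
  refine ⟨h2 C hC, fun hHL D B hS => ?_⟩
  obtain ⟨hHD, hHB, -⟩ := h3 hne C D B hC hS hHL
  refine ⟨hHD, hHB, fun hHT => ?_⟩
  obtain ⟨hD, hB, hDB⟩ := hS
  rw [HomEq, W.cl_fund, map_zero] at hne
  have hX1 : (1 : W.H A.X) ≠ 0 := by
    intro h0
    apply hne
    rw [← map_one (W.map (fst A.X Z)), h0, map_zero]
  obtain ⟨φ, Fφ, hφ⟩ := exists_lw hD hHD
  obtain ⟨γ, Gγ, hγ⟩ := exists_lw hB hHB
  have hst : Stable W A.X φ := stable_of_lefschetzA Fφ.hD Fφ.sl2
    (lefschetzA_of_D Fφ.hD hHD hnum)
  have hsum : (A.X.prod Z).IsCyc 1 (ops.pull (fst A.X Z) D + ops.pull (snd A.X Z) B) :=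
    SmVar.IsCyc.add (ops.pull_mem _ hD) (ops.pull_mem _ hB)
  constructor
  · intro h
    exact hodge_of_prod Fφ Gγ hHT hX1 (hodgeType_congr hC hsum hDB h)
  · intro h
    exact hodgeType_congr hsum hC hDB.symm
      (hodge_prod_of htens Fφ hφ hHD hst hHT Gγ hγ h)

end Pool.Agent.Q70.CT
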