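import Mathlib
import Pool.Agent.Y1.CT.CodimDefs

/-!
# Orders of poles of zeta functions and ranks of groups of cycles: definitions
-/

set_option autoImplicit false

open CategoryTheory AlgebraicGeometry

universe u v w

namespace Pool.Agent.Q70.CT

open Polynomial Module Pool.Agent.H914 Pool.Agent.H914.VarClass Pool.Agent.H914.VarClass.Obj
  Pool.Agent.W492.BB Pool.Agent.W484.CK Pool.Agent.Y1.CT

variable {k : Type u} [Field k] {𝒱 : VarClass k} {C : TheoryData.{u, v, 0} 𝒱 ℚ} {F : Type w}
  [Field F] (H : WeilTheoryData.{u, v, w} C F) {A Z : 𝒱.Obj}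

/-- The space of the generalized eigenvectors of `π^*` in `H^n(Z)` for the eigenvalue `Q ^ c`; its
dimension is the multiplicity of the root `Q ^ c` of the characteristic polynomial of `π^*` on
`H^n(Z)`. -/
noncomputable def eigenspace (π : Z ⟶ Z) (Q : ℕ) (c n : ℤ) : Submodule F (H.A Z) :=
  H.gr Z n ⊓ Module.End.maxGenEigenspace (H.pull π).toLinearMap ((Q : F) ^ c)

/-- The order of the pole of the zeta function
`ζ(Z, T) = ∏ det (1 - T π^* | H^n(Z)) ^ ((-1) ^ (n + 1))` at `T = Q ^ (-c)`, that is, the order of the
pole at `s = c` for `T = Q ^ (-s)`: the sum of `(-1) ^ n` times the multiplicity of the eigenvalue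
`Q ^ c` of `π^*` on `H^n(Z)`, for `0 ≤ n ≤ 2 dim Z`. -/
noncomputable def poleOrder (π : Z ⟶ Z) (Q : ℕ) (c : ℤ) : ℤ :=
  ∑ n ∈ Finset.range (2 * Z.dim + 1), (-1) ^ n * (finrank F (eigenspace H π Q c n) : ℤ)

/-- The cycle `x` of codimension `c` on `Z` is numerically equivalent to zero. (The intersection
number of the cycles `x`, `y` is the value of the orientation at the class of `x · y`, up to a
nonzero constant.) -/
def NumTrivial (c : ℕ) (x : C.A Z) : Prop :=
  ∀ (d : ℕ) (y : C.A Z), c + d = Z.dim → C.Deg d y → H.tr Z (H.cl (C.mul x y)) = 0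

/-- The dimension of the quotient by a subspace. -/
noncomputable def corank {M : Type*} [AddCommGroup M] [Module ℚ M] (S : Submodule ℚ M) : ℕ :=
  finrank ℚ (M ⧸ S)

/-- The subspace of `CH^c(Z)`, with rational coefficients, spanned by the (in fact, consisting of the)
classes numerically equivalent to zero. -/
def numSpan (Z : 𝒱.Obj) (c : ℕ) : Submodule ℚ (C.gr Z c) :=
  Submodule.span ℚ {x : C.gr Z c | NumTrivial H c (x : C.A Z)}

/-- The rank of the group of the cycles of codimension `c` on `Z` modulo numerical equivalence: the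
dimension of the quotient of `CH^c(Z)` by the classes numerically equivalent to zero. -/
noncomputable def numRank (Z : 𝒱.Obj) (c : ℕ) : ℕ := corank (numSpan H Z c)

/-- The formula of Tate for `Z` at `s = c`: the order of the pole of the zeta function at `s = c` is
the rank of the group of the cycles of codimension `c` modulo numerical equivalence. -/
def PoleFormula (π : Z ⟶ Z) (Q c : ℕ) : Prop := poleOrder H π Q c = numRank H Z c

/-- The powers of `Q` among the eigenvalues of `π^*` on `H^n(Z)` are `Q ^ (n / 2)` only: this is a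
consequence of the Riemann hypothesis (Deligne: the eigenvalues on `H^n(Z)` have complex absolute
values `Q ^ (n / 2)`). -/
def IsPure (π : Z ⟶ Z) (Q : ℕ) : Prop :=
  ∀ (n c : ℤ) (v : H.A Z), v ≠ 0 → H.Deg n v → H.up π v = (Q : F) ^ c • v → n = 2 * c

/-- The ranks of the groups of cycles modulo numerical equivalence in the codimensions `0, ..., dim A`
are positive. -/
def PositiveRanks (A : 𝒱.Obj) : Prop := ∀ i ≤ A.dim, 0 < numRank H A i

/-- The rank of the group of cycles of codimension `c` on `A × Z` modulo numerical equivalence is the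
sum over `0 ≤ i ≤ dim A`, `i ≤ c`, of the products of the ranks for `A`, codimension `i`, and `Z`,
codimension `c - i`. -/
def RankRule (A Z : 𝒱.Obj) : Prop :=
  ∀ c : ℕ, numRank H (A.prod Z) c = ∑ i ∈ Finset.range (A.dim + 1),
    if i ≤ c then numRank H A i * numRank H Z (c - i) else 0

/-- The order of the pole of `ζ(A × Z, s)` at `s = c` is the sum over `0 ≤ i ≤ dim A` of the products
of the rank of the group of cycles of codimension `i` on `A` modulo numerical equivalence with the
order of the pole of `ζ(Z, s)` at `s = c - i`. -/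
def PoleRule (πA : A ⟶ A) (πZ : Z ⟶ Z) (Q : ℕ) : Prop :=
  ∀ c : ℤ, poleOrder H (prodMap πA πZ) Q c = ∑ i ∈ Finset.range (A.dim + 1),
    (numRank H A i : ℤ) * poleOrder H πZ Q (c - i)

/-- If `πZ` is pure, then the order of the pole of `ζ(Z, s)` at `s = c` is at least the rank for the
codimension `c`, and the formula of Tate holds for `A × Z` at `s = c` if and only if it holds for `Z`
at `s = c - i` for all `i` with `0 ≤ i ≤ dim A`, `i ≤ c`. -/
def DefectRule (πA : A ⟶ A) (πZ : Z ⟶ Z) (Q : ℕ) : Prop :=
  IsPure H πZ Q → ∀ c : ℕ, (numRank H Z c : ℤ) ≤ poleOrder H πZ Q c ∧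
    (PoleFormula H (prodMap πA πZ) Q c ↔ ∀ i ≤ A.dim, i ≤ c → PoleFormula H πZ Q (c - i))

/-- `PoleTimes K q f`: the following holds for the Chow groups `C` with rational coefficients of all
classes `𝒱` of varieties over fields `k` (finite, in the intended use), every Weil cohomology
theory `H` with coefficients in an algebraically closed field `F` of characteristic zero, all `A`,
`Z` as in `IsPair` where the Frobenius endomorphism `πA × πZ` acts on the Chow groups of `A × Z` in
the usual way. The four rules `PositiveRanks`, `RankRule`, `PoleRule`, `DefectRule` hold for `A × Z`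
with `Q = q ^ s`. -/
def PoleTimes {I : Type} (K : I → Type) [∀ i, Field (K i)] (q : ℕ) (f : I → ℤ[X]) : Prop :=
  ∀ (k : Type) [Field k] (𝒱 : VarClass k) (C : TheoryData.{0, 0, 0} 𝒱 ℚ) [IsChow C]
    (F : Type) [Field F] [IsAlgClosed F] [CharZero F] (H : WeilTheoryData.{0, 0, 0} C F)
    [IsWeil H] (s : ℕ) (A Z : 𝒱.Obj) (πA : A ⟶ A) (πZ : Z ⟶ Z),
      IsPair H K q s f πA πZ → IsFrobenius C (prodMap πA πZ) (q ^ s) →
      PositiveRanks H A ∧ RankRule H A Z ∧ PoleRule H πA πZ (q ^ s) ∧
        DefectRule H πA πZ (q ^ s)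

end Pool.Agent.Q70.CT
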