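import Mathlib
import Pool.Agent.Q70.CT.PoleDefs
import Pool.Agent.Y1.CT.CodimNum

/-!
# The rank of the group of cycles modulo numerical equivalence
-/

set_option autoImplicit false
set_option linter.unusedSectionVars false
set_option linter.unusedVariables false

open CategoryTheory AlgebraicGeometry

universe u v w

namespace Pool.Agent.Q70.CT

open Polynomial Module Pool.Agent.H914 Pool.Agent.H914.VarClass Pool.Agent.H914.VarClass.Obj
  Pool.Agent.W492.BB Pool.Agent.W484.CH Pool.Agent.Y1.CT Pool.Agent.W550.Corr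

variable {k : Type u} [Field k] {𝒱 : VarClass k} {C : TheoryData.{u, v, 0} 𝒱 ℚ} {K : Type w}
  [Field K] [CharZero K] {H : WeilTheoryData.{u, v, w} C K} [hC : IsChow C] [hH : IsWeil H]
  {A Z X Y : 𝒱.Obj} (hS : IsStandard H)

/-- The cycles numerically equivalent to zero form a subspace. -/
def numSub (H : WeilTheoryData.{u, v, w} C K) (Z : 𝒱.Obj) (c : ℕ) : Submodule ℚ (C.gr Z c) where
  carrier := {x | NumTrivial H c (x : C.A Z)}
  zero_mem' := by
    intro d y _ _
    change H.tr Z (H.cl (0 * y)) = 0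
    rw [zero_mul, map_zero, map_zero]
  add_mem' := by
    intro a b ha hb d y h1 h2
    have h3 := ha d y h1 h2
    have h4 := hb d y h1 h2
    change H.tr Z (H.cl (((a : C.A Z) + b) * y)) = 0
    change H.tr Z (H.cl ((a : C.A Z) * y)) = 0 at h3
    change H.tr Z (H.cl ((b : C.A Z) * y)) = 0 at h4
    rw [add_mul, map_add, map_add, h3, h4, add_zero]
  smul_mem' := by
    intro t a ha d y h1 h2
    have h3 := ha d y h1 h2
    change H.tr Z (H.cl ((t • (a : C.A Z)) * y)) = 0
    change H.tr Z (H.cl ((a : C.A Z) * y)) = 0 at h3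
    rw [smul_mul_assoc, cl_smul, map_smul, h3, smul_zero]

theorem mem_numSub {c : ℕ} {x : C.gr Z c} : x ∈ numSub H Z c ↔ NumTrivial H c (x : C.A Z) := Iff.rfl

theorem span_eq (c : ℕ) :
    Submodule.span ℚ {x : C.gr Z c | NumTrivial H c (x : C.A Z)} = numSub H Z c :=
  Submodule.span_eq (numSub H Z c)

theorem numRank_eq (c : ℕ) : numRank H Z c = finrank ℚ (C.gr Z c ⧸ numSub H Z c) := by
  unfold numRank numSpan corank
  rw [span_eq]

include hS in
/-- The value of the orientation at a zero-cycle of degree one. -/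
theorem exists_deg_fun (X : 𝒱.Obj) : ∃ a : C.A X, C.Deg X.dim a ∧
    (∀ Z : 𝒱.Obj, C.push (fst Z X) (C.pull (snd Z X) a) = 1) ∧
    (∀ Z : 𝒱.Obj, C.push (snd X Z) (C.pull (fst X Z) a) = 1) ∧ H.tr X (H.cl a) ≠ 0 := by
  obtain ⟨a, ha, ha1, ha2⟩ := exists_deg_one C X
  refine ⟨a, ha, ha1, ha2, fun h0 => ?_⟩
  have hne : H.cl a ≠ 0 := by
    intro h1
    have h2 := congrArg H.cl (ha1 X)
    rw [H.cl_push, H.cl_pull, h1, map_zero, map_zero] at h2
    exact cl_one_ne hS X h2.symm
  apply hne
  apply H.nondeg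
  intro b
  classical
  have hint := H.isInternal X
  have hb : b ∈ ⨆ i, H.gr X i := by
    rw [hint.submodule_iSup_eq_top]
    exact Submodule.mem_top
  have hda := H.cl_mem ha
  induction hb using Submodule.iSup_induction' with
  | zero => rw [mul_zero, map_zero]
  | add x y _ _ hx hy => rw [mul_add, map_add, hx, hy, add_zero]
  | mem i x hx =>
    rcases lt_trichotomy i 0 with hi | hi | hi
    · rw [H.gr_neg _ _ hi] at hx
      rw [(Submodule.mem_bot K).1 hx, mul_zero, map_zero]
    · subst hi
      obtain ⟨c, rfl⟩ := hS.coh_zero X x hx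
      rw [mul_smul_comm, mul_one, map_smul, h0, smul_zero]
    · have h1 := H.mul_mem hda hx
      rw [hS.coh_top X _ (by omega), Submodule.mem_bot] at h1
      rw [h1, map_zero]

include hS in
/-- The degree of a zero-cycle is rational, with respect to one constant for all varieties. -/
theorem exists_rat (X : 𝒱.Obj) {a : C.A X} (ha1 : C.push (fst X X) (C.pull (snd X X) a) = 1)
    {z : C.A X} (hz : C.Deg X.dim z) : ∃ n : ℚ, H.tr X (H.cl z) = n * H.tr X (H.cl a) := by
  have h1 := C.push_mem (snd X X) (C.pull_mem (fst X X) hz)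
  have h2 : (X.dim : ℤ) + 1 * ((X.dim : ℤ) - (X.prod X).dim) = 0 := by
    rw [Obj.dim_prod]
    push_cast
    ring
  rw [h2] at h1
  obtain ⟨n, hn⟩ := hS.chow_zero X _ h1
  refine ⟨n, ?_⟩
  have h3 : H.tr (X.prod X) (H.cl (C.pull (fst X X) z * C.pull (snd X X) a)) =
      n * H.tr X (H.cl a) := by
    rw [← H.tr_push (snd X X), ← H.cl_push, C.proj_right, hn, smul_mul_assoc, one_mul, cl_smul,
      map_smul, smul_eq_mul]
  have h4 : H.tr (X.prod X) (H.cl (C.pull (fst X X) z * C.pull (snd X X) a)) = H.tr X (H.cl z) := by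
    rw [← H.tr_push (fst X X), ← H.cl_push, C.proj_left, ha1, mul_one]
  rw [← h4, h3]

include hS in
/-- A rational functional for the orientation. -/
theorem exists_delta (X : 𝒱.Obj) : ∃ δ : K →ₗ[ℚ] ℚ, ∀ z : C.A X, C.Deg X.dim z →
    δ (H.tr X (H.cl z)) = 0 → H.tr X (H.cl z) = 0 := by
  obtain ⟨a, ha, ha1, ha2, ht⟩ := exists_deg_fun (H := H) hS X
  set t := H.tr X (H.cl a) with htd
  have hinj : LinearMap.ker (LinearMap.toSpanSingleton ℚ K t) = ⊥ := by
    rw [LinearMap.ker_eq_bot']
    intro m hm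
    rw [LinearMap.toSpanSingleton_apply] at hm
    exact (smul_eq_zero.1 hm).resolve_right ht
  obtain ⟨δ, hδ⟩ := LinearMap.exists_leftInverse_of_injective _ hinj
  have h1 : δ t = 1 := by
    have h2 := LinearMap.congr_fun hδ 1
    rw [LinearMap.comp_apply, LinearMap.toSpanSingleton_apply, one_smul, LinearMap.id_apply] at h2
    exact h2
  refine ⟨δ, fun z hz h0 => ?_⟩
  obtain ⟨n, hn⟩ := exists_rat (H := H) hS X (ha1 X) hz
  have h3 : H.tr X (H.cl z) = n • t := by rw [hn, Rat.smul_def]
  rw [h3, map_smul, h1, smul_eq_mul, mul_one] at h0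
  rw [h3, h0, zero_smul]

/-- The span of the classes of cycles. -/
noncomputable def clSpan (H : WeilTheoryData.{u, v, w} C K) (Z : 𝒱.Obj) (c : ℕ) :
    Submodule K (H.A Z) := Submodule.span K {x | ∃ y : C.A Z, C.Deg c y ∧ x = H.cl y}

/-- The linear functional `x ↦ δ (tr (cl x · s))`. -/
noncomputable def pairWith (δ : K →ₗ[ℚ] ℚ) (c : ℕ) (s : H.A Z) : C.gr Z c →ₗ[ℚ] ℚ where
  toFun x := δ (H.tr Z (H.cl (x : C.A Z) * s))
  map_add' x y := by
    rw [Submodule.coe_add, map_add, add_mul, map_add, map_add]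
  map_smul' r x := by
    rw [Submodule.coe_smul, cl_smul, smul_mul_assoc, map_smul, RingHom.id_apply,
      show ((r : K) • H.tr Z (H.cl (x : C.A Z) * s)) = r • H.tr Z (H.cl (x : C.A Z) * s) by
        rw [Rat.smul_def, smul_eq_mul], map_smul]

include hS in
/-- The group of cycles modulo numerical equivalence is finite-dimensional. -/
theorem finite_and_le {c d : ℕ} (hcd : c + d = Z.dim) :
    Module.Finite ℚ (C.gr Z c ⧸ numSub H Z c) ∧
      finrank ℚ (C.gr Z c ⧸ numSub H Z c) ≤ finrank K (clSpan H Z d) := by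
  classical
  have hfin := hS.finite Z
  obtain ⟨δ, hδ⟩ := exists_delta (H := H) hS Z
  obtain ⟨b, hb, hspan, hli⟩ := exists_linearIndependent K
    {x : H.A Z | ∃ y : C.A Z, C.Deg d y ∧ x = H.cl y}
  have hbfin : b.Finite := hli.setFinite
  have : Fintype b := hbfin.fintype
  have hcard : Fintype.card b = finrank K (clSpan H Z d) := by
    rw [clSpan, ← hspan]
    exact (finrank_span_set_eq_card hli).symm ▸ (Set.toFinset_card b).symm
  let L : C.gr Z c →ₗ[ℚ] (b → ℚ) := LinearMap.pi fun s => pairWith δ c (s : H.A Z)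
  have hker : LinearMap.ker L = numSub H Z c := by
    ext x
    rw [LinearMap.mem_ker, mem_numSub]
    constructor
    · intro h0 d' y hd' hy
      obtain rfl : d' = d := by omega
      have h1 : ∀ s ∈ b, H.tr Z (H.cl (x : C.A Z) * s) = 0 := by
        intro s hs
        obtain ⟨y', hy', rfl⟩ := hb hs
        have h2 : δ (H.tr Z (H.cl (x : C.A Z) * H.cl y')) = 0 := congrFun h0 ⟨_, hs⟩
        rw [← map_mul] at h2 ⊢
        refine hδ _ ?_ h2
        have h3 := C.mul_mem x.2 hy'
        have h4 : (c : ℤ) + d' = Z.dim := by exact_mod_cast hcd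
        rwa [h4] at h3
      have h2 : H.cl y ∈ Submodule.span K b := by
        rw [hspan]
        exact Submodule.subset_span ⟨y, hy, rfl⟩
      change H.tr Z (H.cl ((x : C.A Z) * y)) = 0
      rw [map_mul]
      generalize H.cl y = w at h2 ⊢
      induction h2 using Submodule.span_induction with
      | mem s hs => exact h1 s hs
      | zero => rw [mul_zero, map_zero]
      | add s t _ _ hs ht => rw [mul_add, map_add, hs, ht, add_zero]
      | smul r s _ hs => rw [mul_smul_comm, map_smul, hs, smul_zero]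
    · intro h0
      funext s
      obtain ⟨y', hy', hs⟩ := hb s.2
      change δ (H.tr Z (H.cl (x : C.A Z) * (s : H.A Z))) = 0
      rw [hs, ← map_mul, h0 d y' hcd hy', map_zero]
  have e : (C.gr Z c ⧸ numSub H Z c) ≃ₗ[ℚ] LinearMap.range L := by
    rw [← hker]
    exact L.quotKerEquivRange
  refine ⟨Module.Finite.equiv e.symm, ?_⟩
  rw [e.finrank_eq, ← hcard]
  refine (Submodule.finrank_le _).trans ?_
  rw [Module.finrank_fintype_fun_eq_card]

include hS in
theorem finite_num (c : ℕ) : Module.Finite ℚ (C.gr Z c ⧸ numSub H Z c) := by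
  rcases Nat.lt_or_ge Z.dim c with hc | hc
  · have h1 : C.gr Z (c : ℤ) = ⊥ := hS.chow_top Z c (by exact_mod_cast hc)
    have : Subsingleton (C.gr Z (c : ℤ)) := by
      rw [h1]
      infer_instance
    infer_instance
  · obtain ⟨d, hd⟩ := Nat.exists_eq_add_of_le hc
    exact (finite_and_le hS hd.symm).1

include hS in
theorem numRank_big {c : ℕ} (hc : Z.dim < c) : numRank H Z c = 0 := by
  rw [numRank_eq]
  have h1 : C.gr Z (c : ℤ) = ⊥ := hS.chow_top Z c (by exact_mod_cast hc)
  have : Subsingleton (C.gr Z (c : ℤ)) := by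
    rw [h1]
    infer_instance
  exact Module.finrank_zero_of_subsingleton

include hS in
/-- The ranks in complementary codimensions agree. -/
theorem rank_le_dual {c d : ℕ} (hcd : c + d = Z.dim) :
    finrank ℚ (C.gr Z c ⧸ numSub H Z c) ≤ finrank ℚ (C.gr Z d ⧸ numSub H Z d) := by
  classical
  obtain ⟨δ, hδ⟩ := exists_delta (H := H) hS Z
  have hf := finite_num (H := H) (Z := Z) hS d
  let B : C.gr Z c →ₗ[ℚ] (C.gr Z d →ₗ[ℚ] ℚ) :=
    { toFun := fun x => pairWith δ d (H.cl (x : C.A Z))
      map_add' := by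
        intro x y
        refine LinearMap.ext fun w => ?_
        change δ (H.tr Z (H.cl (w : C.A Z) * H.cl (((x + y : C.gr Z c)) : C.A Z))) = _
        rw [Submodule.coe_add, map_add, mul_add, map_add, map_add]
        rfl
      map_smul' := by
        intro r x
        refine LinearMap.ext fun w => ?_
        change δ (H.tr Z (H.cl (w : C.A Z) * H.cl (((r • x : C.gr Z c)) : C.A Z))) = _
        rw [Submodule.coe_smul, cl_smul, mul_smul_comm, map_smul,
          show ((r : K) • H.tr Z (H.cl (w : C.A Z) * H.cl (x : C.A Z))) =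
            r • H.tr Z (H.cl (w : C.A Z) * H.cl (x : C.A Z)) by rw [Rat.smul_def, smul_eq_mul],
          map_smul]
        rfl }
  have hB : ∀ x : C.gr Z c, numSub H Z d ≤ LinearMap.ker (B x) := by
    intro x w hw
    rw [LinearMap.mem_ker]
    change δ (H.tr Z (H.cl (w : C.A Z) * H.cl (x : C.A Z))) = 0
    rw [← map_mul, hw c x (by omega) x.2, map_zero]
  let B' : C.gr Z c →ₗ[ℚ] ((C.gr Z d ⧸ numSub H Z d) →ₗ[ℚ] ℚ) :=
    { toFun := fun x => (numSub H Z d).liftQ (B x) (hB x)
      map_add' := by
        intro x y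
        refine LinearMap.ext fun w => ?_
        obtain ⟨w, rfl⟩ := Submodule.mkQ_surjective _ w
        rw [LinearMap.add_apply]
        simp only [Submodule.mkQ_apply, Submodule.liftQ_apply, map_add, LinearMap.add_apply]
      map_smul' := by
        intro r x
        refine LinearMap.ext fun w => ?_
        obtain ⟨w, rfl⟩ := Submodule.mkQ_surjective _ w
        simp only [Submodule.mkQ_apply, Submodule.liftQ_apply, map_smul, LinearMap.smul_apply,
          RingHom.id_apply] }
  have hker : LinearMap.ker B' = numSub H Z c := by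
    ext x
    rw [LinearMap.mem_ker, mem_numSub]
    constructor
    · intro h0 d' y hd' hy
      obtain rfl : d' = d := by omega
      have h1 := LinearMap.congr_fun h0 (Submodule.Quotient.mk ⟨y, hy⟩)
      have h2 : δ (H.tr Z (H.cl y * H.cl (x : C.A Z))) = 0 := h1
      rw [← map_mul] at h2
      have h3 := C.mul_mem hy x.2
      have h4 : (d' : ℤ) + c = Z.dim := by
        rw [add_comm]
        exact_mod_cast hcd
      rw [h4] at h3
      have h5 := hδ _ h3 h2
      rw [chow_mul_comm] at h5
      exact h5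
    · intro h0
      refine LinearMap.ext fun w => ?_
      obtain ⟨w, rfl⟩ := Submodule.mkQ_surjective _ w
      change δ (H.tr Z (H.cl (w : C.A Z) * H.cl (x : C.A Z))) = 0
      rw [← map_mul, chow_mul_comm]
      have h5 := h0 d w hcd w.2
      change H.tr Z (H.cl ((x : C.A Z) * w)) = 0 at h5
      rw [h5, map_zero]
  have e : (C.gr Z c ⧸ numSub H Z c) ≃ₗ[ℚ] LinearMap.range B' := by
    rw [← hker]
    exact B'.quotKerEquivRange
  rw [e.finrank_eq]
  refine (Submodule.finrank_le _).trans ?_
  rw [Module.finrank_linearMap, Module.finrank_self, mul_one]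

include hS in
/-- The rank is at most the dimension of the span of the classes. -/
theorem numRank_le (c : ℕ) (hc : c ≤ Z.dim) : numRank H Z c ≤ finrank K (clSpan H Z c) := by
  obtain ⟨d, hd⟩ := Nat.exists_eq_add_of_le hc
  rw [numRank_eq]
  exact (rank_le_dual hS hd.symm).trans (finite_and_le hS (by omega : d + c = Z.dim)).2

end Pool.Agent.Q70.CT
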