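import Mathlib
import Pool.Agent.Q70.CT.Num

/-!
# Cycles modulo numerical equivalence and eigenspaces on the product
-/

set_option autoImplicit false
set_option linter.unusedSectionVars false
set_option linter.unusedVariables false

open CategoryTheory AlgebraicGeometry

universe u v w

namespace Pool.Agent.Q70.CT

open Polynomial Module Pool.Agent.H914 Pool.Agent.H914.VarClass Pool.Agent.H914.VarClass.Obj
  Pool.Agent.W492.BB Pool.Agent.W484.CH Pool.Agent.Y1.CT Pool.Agent.W550.Corr

variable {k : Type u} [Field k] {𝒱 : VarClass k} {C : TheoryData.{u, v, 0} 𝒱 ℚ} {K : Type w}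
  [Field K] [CharZero K] {H : WeilTheoryData.{u, v, w} C K} [hC : IsChow C] [hH : IsWeil H]
  {A Z : 𝒱.Obj} {J : Type} [Fintype J] {deg : J → ℕ} {D E : J → C.A A}
  (hS : IsStandard H) (h : IsDual A Z deg D E) {πA : A ⟶ A} {πZ : Z ⟶ Z} {Q : ℕ} (hQ : Q ≠ 0)
  (hπA : IsFrobenius C πA Q) (hF : IsFrobenius C (prodMap πA πZ) Q)
  (hK : ∀ (i : ℤ) (m : ℕ) (w : H.A (A.prod Z)),
    op (frob H (prodMap πA πZ)) ((Q : K) ^ i) m w = 0 → H.act (H.cl (proj Z D E)) w = w)

/-- The dimension of the quotient by the kernel. -/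
theorem finrank_quot_eq {M N : Type*} [AddCommGroup M] [Module ℚ M] [AddCommGroup N] [Module ℚ N]
    (Φ : M →ₗ[ℚ] N) (hs : Function.Surjective Φ) (T : Submodule ℚ M)
    (hker : LinearMap.ker Φ = T) : finrank ℚ (M ⧸ T) = finrank ℚ N := by
  subst hker
  exact (Φ.quotKerEquivOfSurjective hs).finrank_eq

/-- The group of cycles modulo numerical equivalence. -/
def NQ (H : WeilTheoryData.{u, v, w} C K) (Z : 𝒱.Obj) (c : ℕ) : Type v :=
  C.gr Z (c : ℤ) ⧸ numSub H Z c

noncomputable instance (c : ℕ) : AddCommGroup (NQ H Z c) :=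
  inferInstanceAs (AddCommGroup (C.gr Z (c : ℤ) ⧸ numSub H Z c))

noncomputable instance (c : ℕ) : Module ℚ (NQ H Z c) :=
  inferInstanceAs (Module ℚ (C.gr Z (c : ℤ) ⧸ numSub H Z c))

/-- The class of a cycle. -/
noncomputable def nq (H : WeilTheoryData.{u, v, w} C K) (Z : 𝒱.Obj) (c : ℕ) :
    C.gr Z (c : ℤ) →ₗ[ℚ] NQ H Z c := (numSub H Z c).mkQ

theorem nq_surj (c : ℕ) : Function.Surjective (nq H Z c) := Submodule.mkQ_surjective _

theorem nq_eq_zero {c : ℕ} {x : C.gr Z (c : ℤ)} :
    nq H Z c x = 0 ↔ NumTrivial H c (x : C.A Z) :=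
  Submodule.Quotient.mk_eq_zero _

theorem finrank_nq (c : ℕ) : finrank ℚ (NQ H Z c) = finrank ℚ (C.gr Z c ⧸ numSub H Z c) := rfl

section num

include h in
/-- The push-forward of `E j · x`, as a linear map in one codimension. -/
noncomputable def fwd {c : ℕ} (j : J) (hj : deg j ≤ c) :
    C.gr (A.prod Z) (c : ℤ) →ₗ[ℚ] C.gr Z ((c - deg j : ℕ) : ℤ) where
  toFun x := ⟨C.push (snd A Z) (C.pull (fst A Z) (E j) * (x : C.A (A.prod Z))), by
    have h1 := push_snd_mem (h.right j) x.2
    rwa [← Nat.cast_sub hj] at h1⟩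
  map_add' x y := by
    apply Subtype.ext
    change C.push (snd A Z) (C.pull (fst A Z) (E j) * ((x + y : C.gr (A.prod Z) (c : ℤ)) :
      C.A (A.prod Z))) = _ + _
    rw [Submodule.coe_add, mul_add, map_add]
  map_smul' r x := by
    apply Subtype.ext
    change C.push (snd A Z) (C.pull (fst A Z) (E j) * ((r • x : C.gr (A.prod Z) (c : ℤ)) :
      C.A (A.prod Z))) = r • _
    rw [Submodule.coe_smul, mul_smul_comm, map_smul]

theorem fwd_ext (i j : J) (z : C.A Z) :
    C.push (snd A Z) (C.pull (fst A Z) (E j) * (C.pull (fst A Z) (D i) * C.pull (snd A Z) z)) =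
      C.push (snd A Z) (C.pull (fst A Z) (D i * E j)) * z := by
  rw [← mul_assoc, ← map_mul, C.proj_right, chow_mul_comm (E j) (D i)]

include hQ hF hK in
/-- A cycle on the product, up to homological equivalence. -/
theorem cl_eq_sum {c : ℕ} {x : C.A (A.prod Z)} (hx : C.Deg (c : ℤ) x) :
    H.cl x = ∑ j, H.cl (C.ext (D j) (C.push (snd A Z) (C.pull (fst A Z) (E j) * x))) := by
  have h1 : H.pull (prodMap πA πZ) (H.cl x) = (Q : K) ^ (c : ℤ) • H.cl x := by
    have h2 : C.pull (prodMap πA πZ) x = (Q : ℚ) ^ c • x := hF.chow c x hx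
    rw [← H.cl_pull, h2, cl_smul, zpow_natCast]
    push_cast
    rfl
  refine (eq_sum_of_act (hK_one hK _ _ h1)).trans (Finset.sum_congr rfl fun j _ => ?_)
  rw [← W484.CK.cl_act', act_pairBy, ← W484.CK.cl_act', act_extBy]

include hS h hQ hF hK in
/-- **The cycles on the product modulo numerical equivalence.** -/
theorem finrank_num_prod (c : ℕ) :
    finrank ℚ (C.gr (A.prod Z) c ⧸ numSub H (A.prod Z) c) =
      ∑ j, if deg j ≤ c then finrank ℚ (C.gr Z ((c - deg j : ℕ) : ℤ) ⧸ numSub H Z (c - deg j))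
        else 0 := by
  classical
  have hfinZ : ∀ c, Module.Finite ℚ (NQ H Z c) := finite_num hS
  let Φ : C.gr (A.prod Z) (c : ℤ) →ₗ[ℚ] (∀ j : {j : J // deg j ≤ c}, NQ H Z (c - deg (j : J))) :=
    LinearMap.pi fun j => (nq H Z (c - deg (j : J))).comp (fwd h (j : J) j.2)
  have hsurj : Function.Surjective Φ := by
    intro z
    choose y hy using fun j : {j : J // deg j ≤ c} => nq_surj _ (z j)
    refine ⟨⟨∑ j : {j : J // deg j ≤ c}, C.pull (fst A Z) (D (j : J)) *
      C.pull (snd A Z) (y j : C.A Z), Submodule.sum_mem _ fun j _ => ?_⟩, ?_⟩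
    · have h2 := C.mul_mem (C.pull_mem (fst A Z) (h.left (j : J))) (C.pull_mem (snd A Z) (y j).2)
      have h3 : ((deg (j : J) : ℕ) : ℤ) + ((c - deg (j : J) : ℕ) : ℤ) = c := by
        have := j.2
        omega
      rwa [h3] at h2
    · funext i
      rw [← hy i]
      change nq H Z _ (fwd h (i : J) i.2 _) = nq H Z _ (y i)
      congr 1
      apply Subtype.ext
      change C.push (snd A Z) (C.pull (fst A Z) (E (i : J)) * ∑ j : {j : J // deg j ≤ c},
        C.pull (fst A Z) (D (j : J)) * C.pull (snd A Z) (y j : C.A Z)) = y i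
      rw [Finset.mul_sum, map_sum, Finset.sum_eq_single i]
      · rw [fwd_ext, h.eq, one_mul]
      · intro j _ hj
        rw [fwd_ext, h.ne _ _ (fun h0 => hj (Subtype.ext h0)), zero_mul]
      · intro h0
        exact absurd (Finset.mem_univ _) h0
  have hker : LinearMap.ker Φ = numSub H (A.prod Z) c := by
    ext x
    rw [LinearMap.mem_ker, mem_numSub]
    constructor
    · intro h0 d y hd hy
      have h1 : ∀ j, deg j ≤ c → ∀ (d : ℕ) (y : C.A (A.prod Z)), c + d = (A.prod Z).dim →
          C.Deg d y → H.tr (A.prod Z) (H.cl (C.mul (C.ext (D j)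
            (C.push (snd A Z) (C.pull (fst A Z) (E j) * (x : C.A (A.prod Z))))) y)) = 0 := by
        intro j hj d y hd hy
        have h2 : nq H Z (c - deg j) (fwd h j hj x) = 0 := congrFun h0 ⟨j, hj⟩
        rw [nq_eq_zero] at h2
        exact numTrivial_ext h j (fwd h j hj x).2 h2 d y (by omega) hy
      change H.tr _ (H.cl ((x : C.A (A.prod Z)) * y)) = 0
      rw [map_mul, cl_eq_sum hQ hF hK x.2, Finset.sum_mul, map_sum]
      refine Finset.sum_eq_zero fun j _ => ?_
      rw [← map_mul]
      rcases Nat.lt_or_ge c (deg j) with hj | hj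
      · have h3 := push_snd_mem (Z := Z) (h.right j) x.2
        rw [TheoryData.Deg, C.gr_neg Z _ (by omega), Submodule.mem_bot] at h3
        rw [h3]
        have h4 : C.ext (D j) (0 : C.A Z) = 0 := C.ext_zero_right _
        rw [h4, zero_mul, map_zero, map_zero]
      · exact h1 j hj d y hd hy
    · intro h0
      funext j
      change nq H Z (c - deg (j : J)) (fwd h (j : J) j.2 x) = 0
      rw [nq_eq_zero]
      intro d y hd hy
      exact numTrivial_pair h (j : J) j.2 h0 d y hd hy
  have e1 : finrank ℚ (C.gr (A.prod Z) (c : ℤ) ⧸ numSub H (A.prod Z) c) =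
      finrank ℚ (∀ j : {j : J // deg j ≤ c}, NQ H Z (c - deg (j : J))) :=
    finrank_quot_eq Φ hsurj (numSub H (A.prod Z) c) hker
  rw [e1, Module.finrank_pi_fintype]
  change ∑ j : {j : J // deg j ≤ c}, finrank ℚ (NQ H Z (c - deg (j : J))) =
    ∑ j, if deg j ≤ c then finrank ℚ (NQ H Z (c - deg j)) else 0
  rw [Finset.sum_ite, Finset.sum_const_zero, add_zero]
  exact (Finset.sum_subtype (Finset.univ.filter fun j => deg j ≤ c) (by simp)
    (fun j => finrank ℚ (NQ H Z (c - deg j)))).symm

end num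

section abel

include hS h hQ hπA hF hK in
/-- The number of members of codimension `i` of the dual system. -/
theorem finrank_num_abelian (i : ℕ) :
    finrank ℚ (C.gr A i ⧸ numSub H A i) = Fintype.card {j : J // deg j = i} := by
  classical
  obtain ⟨a, ha, ha1, ha2, ht⟩ := exists_deg_fun (H := H) hS A
  obtain ⟨b, hb, hb1, hb2, htb⟩ := exists_deg_fun (H := H) hS Z
  -- the trace on `A` and the push-forward to `Z`
  have key : ∀ (z : C.A A) (r : ℚ), C.push (snd A Z) (C.pull (fst A Z) z) = r • 1 →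
      H.tr A (H.cl z) = r * H.tr Z (H.cl b) := by
    intro z r hr
    have h3 : H.tr (A.prod Z) (H.cl (C.pull (fst A Z) z * C.pull (snd A Z) b)) =
        r * H.tr Z (H.cl b) := by
      rw [← H.tr_push (snd A Z), ← H.cl_push, C.proj_right, hr, smul_mul_assoc, one_mul, cl_smul,
        map_smul, smul_eq_mul]
    rw [← h3, ← H.tr_push (fst A Z), ← H.cl_push, C.proj_left, hb1, mul_one]
  have hrat : ∀ j : {j : J // deg j = i}, ∀ x ∈ C.gr A (i : ℤ), ∃ r : ℚ,
      C.push (snd A Z) (C.pull (fst A Z) (E (j : J) * x)) = r • 1 := by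
    intro j x hx
    have h1 := C.push_mem (snd A Z) (C.pull_mem (fst A Z) (C.mul_mem (h.right (j : J)) hx))
    have h2 : (A.dim : ℤ) - deg (j : J) + i + 1 * ((Z.dim : ℤ) - (A.prod Z).dim) = 0 := by
      rw [Obj.dim_prod, j.2]
      push_cast
      ring
    rw [h2] at h1
    exact hS.chow_zero Z _ h1
  obtain ⟨δ, hδ⟩ := LinearMap.exists_leftInverse_of_injective
    (LinearMap.toSpanSingleton ℚ K (H.tr Z (H.cl b))) (by
      rw [LinearMap.ker_eq_bot']
      intro m hm
      rw [LinearMap.toSpanSingleton_apply] at hm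
      exact (smul_eq_zero.1 hm).resolve_right htb)
  have hδ1 : δ (H.tr Z (H.cl b)) = 1 := by
    have h2 := LinearMap.congr_fun hδ 1
    rw [LinearMap.comp_apply, LinearMap.toSpanSingleton_apply, one_smul, LinearMap.id_apply] at h2
    exact h2
  have hδr : ∀ (z : C.A A) (r : ℚ), C.push (snd A Z) (C.pull (fst A Z) z) = r • 1 →
      δ (H.tr A (H.cl z)) = r := by
    intro z r hr
    rw [key z r hr, show (r : K) * H.tr Z (H.cl b) = r • H.tr Z (H.cl b) by rw [Rat.smul_def],
      map_smul, hδ1, smul_eq_mul, mul_one]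
  let Φ : C.gr A (i : ℤ) →ₗ[ℚ] ({j : J // deg j = i} → ℚ) :=
    LinearMap.pi fun j => pairWith δ i (H.cl (E (j : J)))
  have hΦ : ∀ x j, Φ x j = δ (H.tr A (H.cl (E (j : J) * (x : C.A A)))) := by
    intro x j
    change δ (H.tr A (H.cl (x : C.A A) * H.cl (E (j : J)))) = _
    rw [← map_mul, chow_mul_comm]
  have hsurj : Function.Surjective Φ := by
    intro z
    refine ⟨∑ j : {j : J // deg j = i}, z j • ⟨D (j : J), by
      have h1 := h.left (j : J)
      rwa [j.2] at h1⟩, ?_⟩
    rw [map_sum]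
    funext l
    rw [Finset.sum_apply, Finset.sum_eq_single l]
    · rw [map_smul, Pi.smul_apply, hΦ, hδr _ 1 (by
        rw [chow_mul_comm, h.eq, one_smul]), smul_eq_mul, mul_one]
    · intro j _ hj
      rw [map_smul, Pi.smul_apply, hΦ, hδr _ 0 (by
        rw [chow_mul_comm, h.ne _ _ (fun h0 => hj (Subtype.ext h0)), zero_smul]), smul_zero]
    · intro h0
      exact absurd (Finset.mem_univ _) h0
  have hker : LinearMap.ker Φ = numSub H A i := by
    ext x
    rw [LinearMap.mem_ker, mem_numSub]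
    constructor
    · intro h0
      -- the class of `x × 1` is zero
      have h1 : H.cl (C.pull (fst A Z) (x : C.A A)) = 0 := by
        have hx1 : C.Deg ((i : ℕ) : ℤ) (C.pull (fst A Z) (x : C.A A)) := C.pull_mem _ x.2
        rw [cl_eq_sum hQ hF hK hx1]
        refine Finset.sum_eq_zero fun j _ => ?_
        have h2 : C.push (snd A Z) (C.pull (fst A Z) (E j) * C.pull (fst A Z) (x : C.A A)) = 0 := by
          rw [← map_mul]
          have h1 : E j * (x : C.A A) ∈ C.gr A ((A.dim : ℤ) - deg j + i) :=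
            C.mul_mem (h.right j) x.2
          rcases lt_trichotomy (deg j) i with h2 | h2 | h2
          · rw [hS.chow_top A _ (by omega), Submodule.mem_bot] at h1
            rw [h1, map_zero, map_zero]
          · obtain ⟨r, hr⟩ := hrat ⟨j, h2⟩ x x.2
            have h3 := congrFun h0 ⟨j, h2⟩
            rw [hΦ, hδr _ r hr] at h3
            change r = 0 at h3
            change C.push (snd A Z) (C.pull (fst A Z) (E j * (x : C.A A))) = r • 1 at hr
            rw [hr, h3, zero_smul]
          · have h3 := C.push_mem (snd A Z) (C.pull_mem (fst A Z) h1)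
            have h4 : (A.dim : ℤ) - deg j + i + 1 * ((Z.dim : ℤ) - (A.prod Z).dim) =
                i - deg j := by
              rw [Obj.dim_prod]
              push_cast
              ring
            rw [h4, C.gr_neg Z _ (by omega), Submodule.mem_bot] at h3
            exact h3
        rw [h2, C.ext_zero_right, map_zero]
      intro d y hd hy
      change H.tr A (H.cl ((x : C.A A) * y)) = 0
      have h3 : H.tr (A.prod Z) (H.cl (C.pull (fst A Z) ((x : C.A A) * y) *
          C.pull (snd A Z) b)) = H.tr A (H.cl ((x : C.A A) * y)) := by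
        rw [← H.tr_push (fst A Z), ← H.cl_push, C.proj_left, hb1, mul_one]
      rw [← h3, map_mul (C.pull (fst A Z)), map_mul H.cl, map_mul H.cl, h1, zero_mul, zero_mul,
        map_zero]
    · intro h0
      funext j
      rw [hΦ]
      have h1 := h.right (j : J)
      have h5 := h.le (j : J)
      have h6 : (A.dim : ℤ) - deg (j : J) = ((A.dim - i : ℕ) : ℤ) := by
        have := j.2
        omega
      rw [h6] at h1
      have h7 := h0 (A.dim - i) (E (j : J)) (by have := j.2; omega) h1
      change H.tr A (H.cl ((x : C.A A) * E (j : J))) = 0 at h7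
      rw [chow_mul_comm, h7, map_zero]
      rfl
  rw [finrank_quot_eq Φ hsurj _ hker, Module.finrank_fintype_fun_eq_card]

end abel

section eig

include hQ hπA h in
theorem op_ext' (j : J) (c : ℤ) (m : ℕ) (y : H.A Z) :
    op (frob H (prodMap πA πZ)) ((Q : K) ^ c) m (H.act (H.cl (extBy C Z (D j))) y) =
      ((Q : K) ^ deg j) ^ m • H.act (H.cl (extBy C Z (D j)))
        (op (frob H πZ) ((Q : K) ^ (c - deg j)) m y) := by
  have hQK : (Q : K) ≠ 0 := by exact_mod_cast hQ
  induction m with
  | zero => simp [op]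
  | succ m ih =>
    have h1 : ∀ (X : 𝒱.Obj) (π : X ⟶ X) (μ : K) (v : H.A X), op (frob H π) μ (m + 1) v =
        (frob H π - μ • (1 : Module.End K (H.A X))) (op (frob H π) μ m v) := by
      intro X π μ v
      rw [op, op, pow_succ', Module.End.mul_apply]
    rw [h1, h1, ih, map_smul]
    have h2 : (Q : K) ^ c = (Q : K) ^ deg j * (Q : K) ^ (c - deg j) := by
      rw [← zpow_natCast, ← zpow_add₀ hQK]
      congr 1
      ring
    have h3 := W484.CK.frob_ext h hπA (πZ := πZ) (H := H) j
      (op (frob H πZ) ((Q : K) ^ (c - deg j)) m y)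
    have h4 : (frob H (prodMap πA πZ) - (Q : K) ^ c • (1 : Module.End K (H.A (A.prod Z))))
        (H.act (H.cl (extBy C Z (D j))) (op (frob H πZ) ((Q : K) ^ (c - deg j)) m y)) =
        (Q : K) ^ deg j • H.act (H.cl (extBy C Z (D j)))
          ((frob H πZ - (Q : K) ^ (c - deg j) • (1 : Module.End K (H.A Z)))
            (op (frob H πZ) ((Q : K) ^ (c - deg j)) m y)) := by
      rw [LinearMap.sub_apply, LinearMap.smul_apply, Module.End.one_apply, LinearMap.sub_apply,
        LinearMap.smul_apply, Module.End.one_apply]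
      change H.pull (prodMap πA πZ) _ - _ = _ • H.act _ (H.pull πZ _ - _)
      rw [h3, h2, mul_smul, sub_eq_add_neg (H.pull πZ _), ← neg_smul, act_map_add,
        act_map_smul, smul_add, neg_smul, smul_neg, sub_eq_add_neg]
    rw [h4, smul_smul, pow_succ]

theorem mem_eigenspace {X : 𝒱.Obj} {π : X ⟶ X} {c n : ℤ} {w : H.A X} :
    w ∈ eigenspace H π Q c n ↔ w ∈ H.gr X n ∧ ∃ m, op (frob H π) ((Q : K) ^ c) m w = 0 := by
  rw [eigenspace, Submodule.mem_inf, Module.End.mem_maxGenEigenspace]
  rfl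

include h in
theorem ext_deg (j : J) {n : ℤ} {y : H.A Z} (hy : H.Deg n y) :
    H.Deg (n + 2 * deg j) (H.act (H.cl (extBy C Z (D j))) y) := by
  rw [W484.CK.cl_extBy_act]
  have h1 := H.cl_mem (h.left j)
  have h2 := H.mul_mem (H.pull_mem (fst A Z) h1) (H.pull_mem (snd A Z) hy)
  rwa [show 2 * (deg j : ℤ) + n = n + 2 * deg j by ring] at h2

include h in
theorem pair_deg (j : J) {n : ℤ} {w : H.A (A.prod Z)} (hw : H.Deg n w) :
    H.Deg (n - 2 * deg j) (H.act (H.cl (pairBy C Z (E j))) w) := by
  have h1 := H.cl_mem (pairBy_mem (Z := Z) (h.right j))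
  have h2 := H.push_mem (snd (A.prod Z) Z) (H.mul_mem h1 (H.pull_mem (fst (A.prod Z) Z) hw))
  have h3 : 2 * (((A.prod Z).dim : ℤ) + -(deg j : ℤ)) + n +
      2 * ((Z.dim : ℤ) - ((A.prod Z).prod Z).dim) = n - 2 * deg j := by
    simp only [Obj.dim_prod]
    push_cast
    ring
  rw [h3] at h2
  exact h2

include h hQ hπA hK in
theorem pair_eigen (j : J) {c n : ℤ} {w : H.A (A.prod Z)}
    (hw : w ∈ eigenspace H (prodMap πA πZ) Q c n) :
    H.act (H.cl (pairBy C Z (E j))) w ∈ eigenspace H πZ Q (c - deg j) (n - 2 * deg j) := by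
  rw [mem_eigenspace] at hw ⊢
  obtain ⟨hn, m, hm⟩ := hw
  refine ⟨pair_deg h j hn, m, ?_⟩
  have h1 := eq_sum_of_act (hK c m w hm)
  have hQK : (Q : K) ≠ 0 := by exact_mod_cast hQ
  have h3 : ∑ j, H.act (H.cl (extBy C Z (D j))) (((Q : K) ^ deg j) ^ m •
      op (frob H πZ) ((Q : K) ^ (c - deg j)) m (H.act (H.cl (pairBy C Z (E j))) w)) =
      ∑ j, H.act (H.cl (extBy C Z (D j))) 0 := by
    have h4 : ∀ j, H.act (H.cl (extBy C Z (D j))) (((Q : K) ^ deg j) ^ m •
      op (frob H πZ) ((Q : K) ^ (c - deg j)) m (H.act (H.cl (pairBy C Z (E j))) w)) =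
        op (frob H (prodMap πA πZ)) ((Q : K) ^ c) m (H.act (H.cl (extBy C Z (D j)))
          (H.act (H.cl (pairBy C Z (E j))) w)) := by
      intro j
      rw [op_ext' h hQ hπA j, act_map_smul]
    rw [Finset.sum_congr rfl fun j _ => h4 j, ← map_sum, ← h1, hm]
    exact (Finset.sum_eq_zero fun j _ => H.act_map_zero _).symm
  have h5 := congrFun (W484.CK.coh_ext_inj h h3) j
  exact (smul_eq_zero.1 h5).resolve_left (pow_ne_zero _ (pow_ne_zero _ hQK))

include h hQ hπA in
theorem ext_eigen (j : J) {c n : ℤ} {y : H.A Z}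
    (hy : y ∈ eigenspace H πZ Q (c - deg j) (n - 2 * deg j)) :
    H.act (H.cl (extBy C Z (D j))) y ∈ eigenspace H (prodMap πA πZ) Q c n := by
  rw [mem_eigenspace] at hy ⊢
  obtain ⟨hn, m, hm⟩ := hy
  refine ⟨?_, m, ?_⟩
  · have h1 := ext_deg h j hn
    rwa [sub_add_cancel] at h1
  · rw [op_ext' h hQ hπA j, hm, H.act_map_zero, smul_zero]

include hS h hQ hπA hK in
/-- **The eigenspaces on the product.** -/
theorem finrank_eig_prod (c n : ℤ) :
    finrank K (eigenspace H (prodMap πA πZ) Q c n) =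
      ∑ j, finrank K (eigenspace H πZ Q (c - deg j) (n - 2 * deg j)) := by
  classical
  have hfin := hS.finite Z
  have hfin2 := hS.finite (A.prod Z)
  let e : eigenspace H (prodMap πA πZ) Q c n ≃ₗ[K]
      (∀ j, eigenspace H πZ Q (c - deg j) (n - 2 * deg j)) :=
    { toFun := fun w j => ⟨_, pair_eigen h hQ hπA hK j w.2⟩
      map_add' := by
        intro x y
        funext j
        apply Subtype.ext
        exact act_map_add H.toTheoryData (H.cl (pairBy C Z (E j))) (x : H.A (A.prod Z))
          (y : H.A (A.prod Z))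
      map_smul' := by
        intro r x
        funext j
        apply Subtype.ext
        exact act_map_smul H.toTheoryData (H.cl (pairBy C Z (E j))) r (x : H.A (A.prod Z))
      invFun := fun y => ⟨∑ j, H.act (H.cl (extBy C Z (D j))) (y j : H.A Z),
        Submodule.sum_mem _ fun j _ => ext_eigen h hQ hπA j (y j).2⟩
      left_inv := by
        intro w
        apply Subtype.ext
        obtain ⟨-, m, hm⟩ := mem_eigenspace.1 w.2
        exact (eq_sum_of_act (hK c m w hm)).symm
      right_inv := by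
        intro y
        funext j
        apply Subtype.ext
        exact W484.CK.coh_pair_sum h j fun j => (y j : H.A Z) }
  rw [e.finrank_eq, Module.finrank_pi_fintype]

end eig

end Pool.Agent.Q70.CT
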