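import Mathlib
import Pool.Agent.Q70.CT.Prod

/-!
# Orders of poles on the product
-/

set_option autoImplicit false
set_option linter.unusedSectionVars false
set_option linter.unusedVariables false

open CategoryTheory AlgebraicGeometry

universe u v w

namespace Pool.Agent.Q70.CT

open Polynomial Module Pool.Agent.H914 Pool.Agent.H914.VarClass Pool.Agent.H914.VarClass.Obj
  Pool.Agent.W492.BB Pool.Agent.W484.CH Pool.Agent.Y1.CT Pool.Agent.W550.Corr

/-- Shifting an alternating sum. -/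
theorem shift_sum (g : ℤ → ℤ) (a b d : ℕ) (hd : d ≤ a) (hneg : ∀ n, n < 0 → g n = 0)
    (hbig : ∀ n, 2 * (b : ℤ) < n → g n = 0) :
    ∑ n ∈ Finset.range (2 * (a + b) + 1), (-1) ^ n * g ((n : ℤ) - 2 * d) =
      ∑ m ∈ Finset.range (2 * b + 1), (-1) ^ m * g m := by
  have h1 : ∑ n ∈ Finset.Ico (2 * d) (2 * d + (2 * b + 1)), (-1) ^ n * g ((n : ℤ) - 2 * d) =
      ∑ m ∈ Finset.range (2 * b + 1), (-1) ^ m * g m := by
    rw [Finset.sum_Ico_eq_sum_range, show 2 * d + (2 * b + 1) - 2 * d = 2 * b + 1 by omega]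
    refine Finset.sum_congr rfl fun m _ => ?_
    have h2 : ((2 * d + m : ℕ) : ℤ) - 2 * d = m := by
      push_cast
      ring
    rw [h2, pow_add, pow_mul]
    simp
  rw [← h1]
  symm
  refine Finset.sum_subset ?_ ?_
  · intro n hn
    rw [Finset.mem_Ico] at hn
    rw [Finset.mem_range]
    omega
  · intro n hn1 hn2
    rw [Finset.mem_range] at hn1
    rw [Finset.mem_Ico, not_and_or, not_le, not_lt] at hn2
    rcases hn2 with h2 | h2
    · rw [hneg _ (by omega), mul_zero]
    · rw [hbig _ (by omega), mul_zero]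

/-- Grouping a sum by the values of a function. -/
theorem sum_group {J : Type} [Fintype J] (deg : J → ℕ) (a : ℕ) (h : ∀ j, deg j ≤ a) (G : ℕ → ℤ)
    (β : ℕ → ℕ) (hβ : ∀ i, β i = Fintype.card {j : J // deg j = i}) :
    ∑ j, G (deg j) = ∑ i ∈ Finset.range (a + 1), (β i : ℤ) * G i := by
  classical
  rw [← Finset.sum_fiberwise_of_maps_to (s := Finset.univ) (t := Finset.range (a + 1)) (g := deg)
    (fun j _ => Finset.mem_range.2 (by have := h j; omega))]
  refine Finset.sum_congr rfl fun i _ => ?_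
  rw [Finset.sum_congr rfl (g := fun _ => G i) (fun j hj => by rw [(Finset.mem_filter.1 hj).2]),
    Finset.sum_const, nsmul_eq_mul, hβ, Fintype.card_subtype]

section pure

variable {k : Type u} [Field k] {𝒱 : VarClass k} {C : TheoryData.{u, v, 0} 𝒱 ℚ} {K : Type w}
  [Field K] [CharZero K] {H : WeilTheoryData.{u, v, w} C K} [hC : IsChow C] [hH : IsWeil H]
  {Z : 𝒱.Obj} (hS : IsStandard H) {π : Z ⟶ Z} {Q : ℕ}

theorem op_deg {μ : K} {n : ℤ} (m : ℕ) {w : H.A Z} (hw : w ∈ H.gr Z n) :
    op (frob H π) μ m w ∈ H.gr Z n := by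
  induction m with
  | zero => simpa [op] using hw
  | succ m ih =>
    rw [op, pow_succ', Module.End.mul_apply]
    change (frob H π - μ • (1 : Module.End K (H.A Z))) (op (frob H π) μ m w) ∈ _
    rw [LinearMap.sub_apply, LinearMap.smul_apply, Module.End.one_apply]
    exact Submodule.sub_mem _ (H.pull_mem π ih) (Submodule.smul_mem _ _ ih)

theorem eigenspace_bot (hp : IsPure H π Q) {c n : ℤ} (hn : n ≠ 2 * c) :
    eigenspace H π Q c n = ⊥ := by
  rw [eq_bot_iff]
  intro w hw
  rw [mem_eigenspace] at hw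
  obtain ⟨hw1, m, hm⟩ := hw
  rw [Submodule.mem_bot]
  induction m with
  | zero => simpa [op] using hm
  | succ m ih =>
    apply ih
    by_contra h0
    apply hn
    refine hp n c _ h0 (op_deg m hw1) ?_
    rw [op, pow_succ', Module.End.mul_apply] at hm
    change (frob H π - ((Q : K) ^ c) • (1 : Module.End K (H.A Z))) (op (frob H π) _ m w) = 0 at hm
    rw [LinearMap.sub_apply, LinearMap.smul_apply, Module.End.one_apply, sub_eq_zero] at hm
    exact hm

include hS in
theorem finrank_eig_out {c n : ℤ} (hn : n < 0 ∨ 2 * (Z.dim : ℤ) < n) :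
    finrank K (eigenspace H π Q c n) = 0 := by
  have h1 : eigenspace H π Q c n = ⊥ := by
    rw [eigenspace]
    rcases hn with hn | hn
    · rw [H.gr_neg _ _ hn, bot_inf_eq]
    · rw [hS.coh_top Z _ hn, bot_inf_eq]
  rw [h1, finrank_bot]

include hS in
theorem poleOrder_pure (hp : IsPure H π Q) (c : ℤ) :
    poleOrder H π Q c = (finrank K (eigenspace H π Q c (2 * c)) : ℤ) := by
  rw [poleOrder]
  by_cases hc : 0 ≤ c ∧ c ≤ Z.dim
  · obtain ⟨c', rfl⟩ := Int.eq_ofNat_of_zero_le hc.1
    rw [Finset.sum_eq_single (2 * c')]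
    · rw [pow_mul]
      simp
    · intro n _ hn
      rw [eigenspace_bot hp (by omega), finrank_bot]
      simp
    · intro h0
      rw [Finset.mem_range] at h0
      omega
  · rw [finrank_eig_out hS (by omega), Finset.sum_eq_zero]
    · rfl
    · intro n hn
      rw [Finset.mem_range] at hn
      rw [eigenspace_bot hp (by omega), finrank_bot]
      simp

include hS in
/-- The defect is not negative. -/
theorem rank_le_poleOrder (hp : IsPure H π Q)
    (hπ : ∀ (c : ℕ) (y : C.A Z), C.Deg c y → H.pull π (H.cl y) = (Q : K) ^ c • H.cl y) (c : ℕ) :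
    (numRank H Z c : ℤ) ≤ poleOrder H π Q c := by
  have hfin := hS.finite Z
  rw [poleOrder_pure hS hp]
  rcases Nat.lt_or_ge Z.dim c with hc | hc
  · rw [numRank_big hS hc]
    simp
  · have h1 := numRank_le (H := H) hS c hc
    have h2 : clSpan H Z c ≤ eigenspace H π Q c (2 * c) := by
      rw [clSpan, Submodule.span_le]
      rintro _ ⟨y, hy, rfl⟩
      change H.cl y ∈ eigenspace H π Q c (2 * c)
      rw [mem_eigenspace]
      refine ⟨H.cl_mem hy, 1, ?_⟩
      rw [op, pow_one, LinearMap.sub_apply, LinearMap.smul_apply, Module.End.one_apply, sub_eq_zero,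
        zpow_natCast]
      exact hπ c y hy
    exact_mod_cast h1.trans (Submodule.finrank_mono h2)

end pure

section main

variable {k : Type u} [Field k] {𝒱 : VarClass k} {C : TheoryData.{u, v, 0} 𝒱 ℚ} {K : Type w}
  [Field K] [CharZero K] {H : WeilTheoryData.{u, v, w} C K} [hC : IsChow C] [hH : IsWeil H]
  {A Z : 𝒱.Obj} {J : Type} [Fintype J] {deg : J → ℕ} {D E : J → C.A A}
  (hS : IsStandard H) (h : IsDual A Z deg D E) {πA : A ⟶ A} {πZ : Z ⟶ Z} {Q : ℕ} (hQ : Q ≠ 0)
  (hπA : IsFrobenius C πA Q) (hF : IsFrobenius C (prodMap πA πZ) Q)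
  (hK : ∀ (i : ℤ) (m : ℕ) (w : H.A (A.prod Z)),
    op (frob H (prodMap πA πZ)) ((Q : K) ^ i) m w = 0 → H.act (H.cl (proj Z D E)) w = w)

include hS h hQ hπA hK in
theorem poleOrder_prod (c : ℤ) :
    poleOrder H (prodMap πA πZ) Q c = ∑ j, poleOrder H πZ Q (c - deg j) := by
  simp only [poleOrder]
  have h1 : ∀ n : ℕ, (-1 : ℤ) ^ n * (finrank K (eigenspace H (prodMap πA πZ) Q c n) : ℤ) =
      ∑ j, (-1) ^ n * (finrank K (eigenspace H πZ Q (c - deg j) ((n : ℤ) - 2 * deg j)) : ℤ) := by
    intro n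
    rw [finrank_eig_prod hS h hQ hπA hK, Nat.cast_sum, Finset.mul_sum]
  rw [Finset.sum_congr rfl fun n _ => h1 n, Finset.sum_comm]
  refine Finset.sum_congr rfl fun j _ => ?_
  rw [Obj.dim_prod]
  exact shift_sum (fun n => (finrank K (eigenspace H πZ Q (c - deg j) n) : ℤ)) A.dim Z.dim (deg j)
    (h.le j) (fun n hn => by rw [finrank_eig_out hS (Or.inl hn)]; rfl)
    (fun n hn => by rw [finrank_eig_out hS (Or.inr hn)]; rfl)

include hF in
theorem frob_cycles_right (c : ℕ) (y : C.A Z) (hy : C.Deg c y) :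
    H.pull πZ (H.cl y) = (Q : K) ^ c • H.cl y := by
  obtain ⟨a, ha, -, ha2⟩ := exists_deg_one C A
  have h1 : C.pull (prodMap πA πZ) (C.pull (snd A Z) y) = (Q : ℚ) ^ c • C.pull (snd A Z) y :=
    hF.chow c _ (C.pull_mem _ hy)
  rw [← C.pull_comp, prodMap_snd, C.pull_comp] at h1
  have h2 : ∀ z : C.A Z, C.push (snd A Z) (C.pull (fst A Z) a * C.pull (snd A Z) z) = z := by
    intro z
    rw [C.proj_right, ha2, one_mul]
  have h3 : C.push (snd A Z) (C.pull (fst A Z) a * C.pull (snd A Z) (C.pull πZ y)) =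
      C.push (snd A Z) (C.pull (fst A Z) a * ((Q : ℚ) ^ c • C.pull (snd A Z) y)) := by rw [h1]
  rw [mul_smul_comm, map_smul, h2, h2] at h3
  rw [← H.cl_pull, h3, cl_smul]
  push_cast
  rfl

end main

theorem poleTimes {I : Type} {K : I → Type} [∀ i, Field (K i)] {q : ℕ} (hq : 1 < q) {f : I → ℤ[X]}
    (hR : NoRel f q (Unrelated K)) : PoleTimes K q f := by
  intro k _ 𝒱 C _ F _ _ _ H _ s A Z πA πZ hsit hF
  obtain ⟨J, hJ, deg, D, E', hne, h, hD, hK⟩ := kunneth_gen hq hR
    (W484.CK.isStandard_bridge hsit.standard) hsit.pos (W484.CK.isAbelian_bridge hsit.abelian)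
    (πZ := πZ) hsit.unrelated
  have hQ : q ^ s ≠ 0 := pow_ne_zero _ (by omega)
  have hπA := W484.CK.isFrobenius_bridge hsit.abelian.frobenius
  have hS := W484.CK.isStandard_bridge hsit.standard
  have hF' := W484.CK.isFrobenius_bridge hF
  have hβ : ∀ i, numRank H A i = Fintype.card {j : J // deg j = i} := fun i => by
    rw [numRank_eq]
    exact finrank_num_abelian hS h hQ hπA hF' hK i
  have hpos : ∀ i ≤ A.dim, 0 < numRank H A i := by
    intro i hi
    obtain ⟨j, hj⟩ := exists_deg hS h hπA hK hD hi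
    rw [hβ, Fintype.card_pos_iff]
    exact ⟨⟨j, hj⟩⟩
  have hrank : ∀ c : ℕ, (numRank H (A.prod Z) c : ℤ) = ∑ i ∈ Finset.range (A.dim + 1),
      (numRank H A i : ℤ) * (if i ≤ c then (numRank H Z (c - i) : ℤ) else 0) := by
    intro c
    rw [← sum_group deg A.dim h.le (fun i => if i ≤ c then (numRank H Z (c - i) : ℤ) else 0) _ hβ,
      numRank_eq, finrank_num_prod hS h hQ hF' hK]
    push_cast
    refine Finset.sum_congr rfl fun j _ => ?_
    by_cases hj : deg j ≤ c
    · rw [if_pos hj, if_pos hj, numRank_eq]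
    · rw [if_neg hj, if_neg hj]
  have hpole : ∀ c : ℤ, poleOrder H (prodMap πA πZ) (q ^ s) c = ∑ i ∈ Finset.range (A.dim + 1),
        (numRank H A i : ℤ) * poleOrder H πZ (q ^ s) (c - i) := by
    intro c
    rw [poleOrder_prod hS h hQ hπA hK, ← sum_group deg A.dim h.le
      (fun i => poleOrder H πZ (q ^ s) (c - i)) _ hβ]
  refine ⟨hpos, fun c => ?_, hpole, fun hp c => ?_⟩
  · have h1 := hrank c
    have h2 : ∀ i, (numRank H A i : ℤ) * (if i ≤ c then (numRank H Z (c - i) : ℤ) else 0) =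
        ((if i ≤ c then numRank H A i * numRank H Z (c - i) else 0 : ℕ) : ℤ) := by
      intro i
      split_ifs <;> push_cast <;> ring
    rw [Finset.sum_congr rfl fun i _ => h2 i] at h1
    exact_mod_cast h1
  have hle : ∀ c : ℕ, (numRank H Z c : ℤ) ≤ poleOrder H πZ (q ^ s) c :=
    rank_le_poleOrder hS hp (frob_cycles_right hF')
  refine ⟨hle c, ?_⟩
  have hneg : ∀ c : ℤ, c < 0 → poleOrder H πZ (q ^ s) c = 0 := by
    intro c hc
    rw [poleOrder_pure hS hp, finrank_eig_out hS (Or.inl (by omega))]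
    rfl
  have hterm : ∀ i ∈ Finset.range (A.dim + 1), 0 ≤ (numRank H A i : ℤ) *
      (poleOrder H πZ (q ^ s) ((c : ℤ) - i) -
        (if i ≤ c then (numRank H Z (c - i) : ℤ) else 0)) := by
    intro i _
    refine mul_nonneg (Int.natCast_nonneg _) ?_
    split_ifs with hic
    · have h1 := hle (c - i)
      rw [Nat.cast_sub hic] at h1
      omega
    · rw [hneg _ (by omega)]
      simp
  have hdiff : poleOrder H (prodMap πA πZ) (q ^ s) c - numRank H (A.prod Z) c =
      ∑ i ∈ Finset.range (A.dim + 1), (numRank H A i : ℤ) *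
      (poleOrder H πZ (q ^ s) ((c : ℤ) - i) -
        (if i ≤ c then (numRank H Z (c - i) : ℤ) else 0)) := by
    rw [hpole, hrank, ← Finset.sum_sub_distrib]
    exact Finset.sum_congr rfl fun i _ => by ring
  have h1 : PoleFormula H (prodMap πA πZ) (q ^ s) c ↔ ∀ i ∈ Finset.range (A.dim + 1),
      (numRank H A i : ℤ) * (poleOrder H πZ (q ^ s) ((c : ℤ) - i) -
        (if i ≤ c then (numRank H Z (c - i) : ℤ) else 0)) = 0 := by
    rw [PoleFormula, ← sub_eq_zero, hdiff, Finset.sum_eq_zero_iff_of_nonneg hterm]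
  rw [h1]
  constructor
  · intro h2 i hi hic
    have h3 := h2 i (Finset.mem_range.2 (by omega))
    have h4 : (numRank H A i : ℤ) ≠ 0 := by exact_mod_cast (hpos i hi).ne'
    have h5 := (mul_eq_zero.1 h3).resolve_left h4
    rw [if_pos hic, sub_eq_zero] at h5
    rw [PoleFormula, Nat.cast_sub hic]
    exact h5
  · intro h2 i hi
    rw [Finset.mem_range] at hi
    split_ifs with hic
    · have h3 := h2 i (by omega) hic
      rw [PoleFormula, Nat.cast_sub hic] at h3
      rw [h3, sub_self, mul_zero]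
    · rw [hneg _ (by omega), sub_zero, mul_zero]

end Pool.Agent.Q70.CT
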